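import Mathlib

set_option autoImplicit false

namespace Pool.Agent.Results.MP_942486_an.Counter

open Set Filter MeasureTheory Real

lemma crt (d j : ℕ) : ∃ (n : Finset (Fin d) → ℕ) (a : Fin d → ℕ), (∀ J, j ≤ n J) ∧
    Function.Injective a ∧ (∀ i, a i ≠ 0) ∧
    ∀ J i, (n J : ℤ) ∣ a i - if i ∈ J then 1 else 0 := by
  let n : Finset (Fin d) → ℕ := fun J => Nat.fermatNumber (j + Encodable.encode J)
  have n3 : ∀ J, 3 ≤ n J := fun J => Nat.three_le_fermatNumber _
  have h := fun i : Fin d => (Nat.chineseRemainderOfFinset (fun J => if i ∈ J then 1 else 0) n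
    Finset.univ (fun J _ => by have := n3 J; omega) fun J _ J' _ hJ =>
      Nat.coprime_fermatNumber_fermatNumber (by simpa using hJ))
  have h2 : ∀ J i, (n J : ℤ) ∣ (h i).1 - if i ∈ J then 1 else 0 := fun J i => by
    have := (Nat.modEq_iff_dvd.1 ((h i).2 J (Finset.mem_univ _)).symm)
    split_ifs at this ⊢ <;> simpa using this
  have no : ∀ J, ¬ (n J : ℤ) ∣ 1 := fun J hJ => by
    have := Int.le_of_dvd one_pos hJ
    have := n3 J
    omega
  refine ⟨n, fun i => (h i).1, fun J => le_trans (Nat.le_add_right _ _)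
    Nat.fermatNumber_strictMono.le_apply, fun i k hik => ?_, fun i hi => ?_, h2⟩
  · by_contra ne
    have a := h2 {i} i
    have b := h2 {i} k
    simp only [Finset.mem_singleton, if_true, Ne.symm ne, if_false] at a b hik
    rw [hik] at a
    exact no {i} (by simpa using dvd_sub b a)
  · have a := h2 {i} i
    simp only [Finset.mem_singleton, if_true] at a hi
    exact no {i} (by simpa [hi] using a)

lemma int_cos (k : ℤ) : ∫ x in (0 : ℝ)..1, cos (2 * π * k * x) = if k = 0 then 1 else 0 := by
  split_ifs with h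
  · simp [h]
  · have : 2 * π * k ≠ 0 := by positivity
    rw [intervalIntegral.integral_comp_mul_left (fun x => cos x) this, integral_cos]
    rw [mul_one, show 2 * π * k = (2 * k : ℤ) * π by push_cast; ring, sin_int_mul_pi]
    simp

lemma sq_int {d : ℕ} (a : Fin d → ℕ) (ha : Function.Injective a) (h0 : ∀ i, a i ≠ 0) :
    ∫ x in (0 : ℝ)..1, (∑ i, cos (2 * π * a i * x)) ^ 2 = d / 2 := by
  have e : ∀ x : ℝ, (∑ i, cos (2 * π * a i * x)) ^ 2 = ∑ i, ∑ k,
      (cos (2 * π * (a i - a k : ℤ) * x) + cos (2 * π * (a i + a k : ℤ) * x)) / 2 := by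
    intro x
    rw [sq, Finset.sum_mul_sum]
    refine Finset.sum_congr rfl fun i _ => Finset.sum_congr rfl fun k _ => ?_
    push_cast
    rw [mul_sub, mul_add, sub_mul, add_mul, cos_sub, cos_add]
    ring
  simp only [e]
  rw [intervalIntegral.integral_finsetSum fun i _ => Continuous.intervalIntegrable (by fun_prop) _ _]
  have : ∀ i, ∫ x in (0 : ℝ)..1, ∑ k, (cos (2 * π * (a i - a k : ℤ) * x) +
      cos (2 * π * (a i + a k : ℤ) * x)) / 2 = 1 / 2 := by
    intro i
    rw [intervalIntegral.integral_finsetSum fun i _ =>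
      Continuous.intervalIntegrable (by fun_prop) _ _, Finset.sum_eq_single i]
    · rw [intervalIntegral.integral_div, intervalIntegral.integral_add
        (Continuous.intervalIntegrable (by fun_prop) _ _)
        (Continuous.intervalIntegrable (by fun_prop) _ _), int_cos, int_cos,
        if_pos (by simp), if_neg (by have := h0 i; omega)]
      simp
    · intro k _ hk
      have := ha.ne hk
      rw [intervalIntegral.integral_div, intervalIntegral.integral_add
        (Continuous.intervalIntegrable (by fun_prop) _ _)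
        (Continuous.intervalIntegrable (by fun_prop) _ _), int_cos, int_cos,
        if_neg (by omega), if_neg (by have := h0 i; omega)]
      simp
    · simp
  simp only [this]
  simp
  ring

lemma small (a : ∀ j : ℕ, Fin ((j + 1) ^ 2) → ℕ) (ha : ∀ j, Function.Injective (a j))
    (h0 : ∀ j i, a j i ≠ 0) : ∀ᵐ x ∂(volume.restrict (Ioc (0 : ℝ) 1)), ∀ᶠ j in atTop,
      |∑ i, cos (2 * π * a j i * x)| < ((j : ℝ) + 1) ^ 2 / 8 := by
  set μ := volume.restrict (Ioc (0 : ℝ) 1)
  let s : ℕ → Set ℝ := fun j =>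
    {x | (((j : ℝ) + 1) ^ 2 / 8) ^ 2 ≤ (∑ i, cos (2 * π * a j i * x)) ^ 2}
  have b : ∀ j, μ (s j) ≤ ENNReal.ofReal (32 * (1 / ((j : ℝ) + 1) ^ 2)) := by
    intro j
    have := mul_meas_ge_le_integral_of_nonneg (μ := μ)
      (f := fun x => (∑ i, cos (2 * π * a j i * x)) ^ 2) (.of_forall fun x => sq_nonneg _)
      (Continuous.integrableOn_Ioc (by fun_prop)) ((((j : ℝ) + 1) ^ 2 / 8) ^ 2)
    rw [← intervalIntegral.integral_of_le zero_le_one, sq_int _ (ha j) (h0 j)] at this
    rw [← ofReal_measureReal (measure_ne_top _ _)]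
    refine ENNReal.ofReal_le_ofReal ?_
    have p : 0 < ((j : ℝ) + 1) ^ 2 := by positivity
    push_cast at this
    rw [mul_one_div, le_div_iff₀ p]
    refine le_of_mul_le_mul_left ?_ p
    change _ * μ.real (s j) ≤ _ at this
    nlinarith
  have sm : Summable fun j : ℕ => 32 * (1 / ((j : ℝ) + 1) ^ 2) := by
    exact_mod_cast ((summable_nat_add_iff 1).2 (summable_one_div_nat_pow.2 one_lt_two)).mul_left 32
  filter_upwards [ae_eventually_notMem (ne_top_of_le_ne_top sm.tsum_ofReal_ne_top
    (ENNReal.tsum_le_tsum b))] with x hx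
  filter_upwards [hx] with j hj
  exact abs_lt_of_sq_lt_sq (not_le.1 hj) (by positivity)

lemma exists_of_ae {p : ℝ → Prop} (h : ∀ᵐ x ∂(volume.restrict (Ioc (0 : ℝ) 1)), p x) {u v : ℝ}
    (h0 : 0 ≤ u) (h1 : u < v) (h2 : v ≤ 1) : ∃ x ∈ Ioc u v, p x := by
  have := ae_restrict_of_ae_restrict_of_subset (Ioc_subset_Ioc h0 h2) h
  exact (Measure.exists_mem_of_measure_ne_zero_of_ae (by simpa using h1) this)

theorem result : ∃ f : ℕ → ℝ → ℝ, (∀ n, Measurable (f n)) ∧ (∀ n x, |f n x| ≤ 1) ∧
    (∀ n ≥ 1, ∀ x, f n (x + 1 / n) = f n x) ∧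
    ¬ ∃ c, ∀ᵐ x, limsup (fun n => f n x) atTop = c := by
  classical
  choose n a hn ha h0 hd using fun j => crt ((j + 1) ^ 2) j
  let F : ∀ j, Finset (Fin ((j + 1) ^ 2)) → ℝ → ℝ := fun j J x =>
    ∑ i, cos (2 * π * (a j i - if i ∈ J then 1 else 0 : ℤ) * x)
  let A : ℕ → Set ℝ := fun m => ⋃ j, ⋃ J, {x | n j J = m ∧ ((j : ℝ) + 1) ^ 2 / 4 ≤ F j J x}
  have le1 : ∀ m x, |(A m).indicator (1 : ℝ → ℝ) x| ≤ 1 := fun m x => by
    by_cases h : x ∈ A m <;> simp [h]
  refine ⟨fun m => (A m).indicator 1, fun m => measurable_one.indicator ?_, le1, ?_, ?_⟩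
  · refine .iUnion fun j => .iUnion fun J => .inter (.const _) ?_
    exact measurableSet_le measurable_const (Continuous.measurable (f := F j J) (by fun_prop))
  · intro m hm x
    have : ∀ j J, n j J = m → F j J (x + 1 / m) = F j J x := by
      rintro j J rfl
      refine Finset.sum_congr rfl fun i _ => ?_
      obtain ⟨k, hk⟩ := hd j J i
      have : (n j J : ℝ) ≠ 0 := by positivity
      rw [hk, ← cos_add_int_mul_two_pi (_ * x) k]
      congr 1
      push_cast
      field_simp
    have e : x + 1 / m ∈ A m ↔ x ∈ A m := by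
      simp only [A, mem_iUnion, mem_setOf_eq]
      exact exists_congr fun j => exists_congr fun J => and_congr_right fun h => by rw [this j J h]
    simp only [indicator, e, Pi.one_apply]
  rintro ⟨c, hc⟩
  have S := small a ha h0
  have T := small (fun j i => 2 * a j i) (fun j i k h => ha j (by simpa using h))
    fun j i => by simpa using h0 j i
  have H := (S.and T).and (ae_restrict_of_ae hc)
  have pi4 := pi_le_four
  have pi0 := pi_pos
  obtain ⟨x, hx, ⟨x1, -⟩, x2⟩ := exists_of_ae H le_rfl (by norm_num : (0 : ℝ) < 1 / 64)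
    (by norm_num)
  obtain ⟨y, hy, ⟨-, y1⟩, y2⟩ := exists_of_ae H (by norm_num)
    (by norm_num : (1 / 2 : ℝ) < 1 / 2 + 1 / 64) (by norm_num)
  have c0 : c = 0 := by
    obtain ⟨N, hN⟩ := eventually_atTop.1 x1
    have fin : ∀ᶠ m in atTop, ∀ j ∈ Finset.range N, ∀ J, n j J < m :=
      (eventually_all_finset _).2 fun j _ => eventually_all.2 fun J => eventually_gt_atTop _
    rw [← x2]
    refine Tendsto.limsup_eq (tendsto_const_nhds.congr' ?_)
    filter_upwards [fin] with m hm
    refine (indicator_of_notMem ?_ _).symm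
    simp only [A, mem_iUnion, mem_setOf_eq]
    rintro ⟨j, J, e, h⟩
    rcases lt_or_ge j N with c | c
    · exact (hm j (Finset.mem_range.2 c) J).ne e
    have b : F j J x ≤ ∑ i, (cos (2 * π * a j i * x) + 1 / 8) := by
      refine Finset.sum_le_sum fun i _ => ?_
      split_ifs
      · have := (le_abs_self _).trans
          (abs_cos_sub_cos_le (2 * π * (a j i - 1 : ℤ) * x) (2 * π * a j i * x))
        rw [abs_of_nonpos (by push_cast; nlinarith [hx.1])] at this
        push_cast at this ⊢
        nlinarith [hx.1, hx.2]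
      · simp
    rw [Finset.sum_add_distrib] at b
    simp only [Finset.sum_const, Finset.card_univ, Fintype.card_fin, nsmul_eq_mul] at b
    push_cast at b
    linarith [(abs_lt.1 (hN j c)).2]
  have c1 : 1 ≤ c := by
    rw [← y2]
    refine le_limsup_of_frequently_le ?_ (isBoundedUnder_of ⟨1, fun m => (abs_le.1 (le1 m y)).2⟩)
    obtain ⟨N, hN⟩ := eventually_atTop.1 y1
    refine frequently_atTop.2 fun M => ?_
    set j := max M N
    let J := Finset.univ.filter fun i => cos (2 * π * a j i * y) < 0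
    refine ⟨n j J, (le_max_left _ _).trans (hn j J), ?_⟩
    refine (indicator_of_mem ?_ (1 : ℝ → ℝ)).ge
    simp only [A, mem_iUnion, mem_setOf_eq]
    refine ⟨j, J, rfl, ?_⟩
    have b : ∑ i, (cos (2 * π * (2 * a j i : ℕ) * y) / 2 + 3 / 8) ≤ F j J y := by
      refine Finset.sum_le_sum fun i _ => ?_
      rw [show 2 * π * (2 * a j i : ℕ) * y = 2 * (2 * π * a j i * y) by push_cast; ring,
        cos_two_mul]
      have l1 := cos_le_one (2 * π * a j i * y)
      have l2 := neg_one_le_cos (2 * π * a j i * y)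
      simp only [J, Finset.mem_filter, Finset.mem_univ, true_and]
      split_ifs with h
      · have := (le_abs_self _).trans
          (abs_cos_sub_cos_le (2 * π * a j i * y - π) (2 * π * (a j i - 1 : ℤ) * y))
        rw [abs_of_nonneg (by push_cast; nlinarith [hy.1]), cos_sub_pi] at this
        push_cast at this ⊢
        nlinarith [hy.1, hy.2]
      · simp only [sub_zero, Int.cast_natCast]
        nlinarith
    rw [Finset.sum_add_distrib, ← Finset.sum_div] at b
    simp only [Finset.sum_const, Finset.card_univ, Fintype.card_fin, nsmul_eq_mul] at b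
    have := (abs_lt.1 (hN j (le_max_right _ _))).1
    push_cast at b this
    linarith [sq_nonneg ((j : ℝ) + 1)]
  linarith

end Pool.Agent.Results.MP_942486_an.Counter
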